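import Pool.Agent.Helper68.BBQuot

set_option autoImplicit false

open Topology

namespace Pool.Agent.Results.MP_bb3fde_gt.OwnStatement

lemma exists_raw : ∃ (X Y Z : Type) (_ : TopologicalSpace X) (_ : TopologicalSpace Y)
    (_ : TopologicalSpace Z) (f : Y → Z), T2Space X ∧ T2Space Y ∧ Continuous f ∧ IsClosedMap f ∧
      Function.Surjective f ∧ ParacompactSpace (X × Y) ∧ ¬ ParacompactSpace (X × Z) := by
  obtain ⟨P, R, B, hPR, hPB, hRB, hEP, hER, hsm, hBc⟩ := Pool.Agent.Helper68.BB.exists_sets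
  have D : Pool.Agent.Helper68.BB.Data P R B := ⟨hPR, hPB, hRB, hEP, hER, hsm, hBc⟩
  have hXL := D.paracompact
  have hXY : ParacompactSpace (Pool.Agent.Helper68.BB.MT (P ∪ B) B ×
      Pool.Agent.Helper68.BB.YY R B) := by
    have h1 : ParacompactSpace ((Pool.Agent.Helper68.BB.MT (P ∪ B) B ×
      Pool.Agent.Helper68.BB.MT (R ∪ B) B) × OnePoint ℕ) := by
      have hc : CompactSpace (OnePoint ℕ) := OnePoint.instCompactSpace
      have h2 := @instParacompactSpaceProdOfCompactSpace (OnePoint ℕ)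
        (Pool.Agent.Helper68.BB.MT (P ∪ B) B × Pool.Agent.Helper68.BB.MT (R ∪ B) B) _ _ hc hXL
      exact (Homeomorph.paracompactSpace_iff (Homeomorph.prodComm _ _)).1 h2
    exact (Homeomorph.paracompactSpace_iff (Homeomorph.prodAssoc _ _ _)).1 h1
  exact ⟨Pool.Agent.Helper68.BB.MT (P ∪ B) B, Pool.Agent.Helper68.BB.YY R B,
    Pool.Agent.Helper68.BB.ZZ R B, inferInstance, inferInstance, inferInstance,
    Pool.Agent.Helper68.BB.ff R B, inferInstance, inferInstance,
    Pool.Agent.Helper68.BB.continuous_ff, D.isClosedMap_ff,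
    Pool.Agent.Helper68.BB.surjective_ff, hXY, D.not_paracompact⟩

/-- a closed continuous image of a normal space is normal -/
lemma normal_of_closed {Y Z : Type} [TopologicalSpace Y] [TopologicalSpace Z] [NormalSpace Y]
    {f : Y → Z} (hf : Continuous f) (hc : IsClosedMap f) (hs : Function.Surjective f) :
    NormalSpace Z := by
  refine ⟨fun A B hA hB hAB => ?_⟩
  obtain ⟨U, V, hU, hV, hAU, hBV, hUV⟩ :=
    NormalSpace.normal (f ⁻¹' A) (f ⁻¹' B) (hA.preimage hf) (hB.preimage hf) (hAB.preimage f)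
  refine ⟨(f '' Uᶜ)ᶜ, (f '' Vᶜ)ᶜ, (hc _ hU.isClosed_compl).isOpen_compl,
    (hc _ hV.isClosed_compl).isOpen_compl, ?_, ?_, ?_⟩
  · rintro z hz ⟨y, hy, rfl⟩
    exact hy (hAU hz)
  · rintro z hz ⟨y, hy, rfl⟩
    exact hy (hBV hz)
  · rw [Set.disjoint_left]
    intro z hz1 hz2
    obtain ⟨y, rfl⟩ := hs z
    have h1 : y ∈ U := by
      by_contra h
      exact hz1 ⟨y, h, rfl⟩
    have h2 : y ∈ V := by
      by_contra h
      exact hz2 ⟨y, h, rfl⟩
    exact Set.disjoint_left.1 hUV h1 h2

/-- There are completely regular Hausdorff (Tychonoff) spaces `X`, `Y`, `Z` and a closed continuous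
surjection `f : Y → Z` such that `X × Y` is paracompact and `X × Z` is not paracompact. -/
theorem result : ∃ (X Y Z : Type) (_ : TopologicalSpace X) (_ : TopologicalSpace Y)
    (_ : TopologicalSpace Z) (f : Y → Z), T35Space X ∧ T35Space Y ∧ T35Space Z ∧
      Continuous f ∧ IsClosedMap f ∧ Function.Surjective f ∧
      ParacompactSpace (X × Y) ∧ ¬ ParacompactSpace (X × Z) := by
  obtain ⟨X, Y, Z, tX, tY, tZ, f, hX, hY, hf, hc, hs, hp, hn⟩ := exists_raw
  refine ⟨X, Y, Z, tX, tY, tZ, f, ?_⟩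
  have hneZ : Nonempty (X × Z) := by
    by_contra h
    rw [not_nonempty_iff] at h
    exact hn inferInstance
  obtain ⟨⟨x0, z0⟩⟩ := hneZ
  obtain ⟨y0, rfl⟩ := hs z0
  have hN : NormalSpace (X × Y) := inferInstance
  have hXe : IsClosedEmbedding (fun x : X => (x, y0)) := by
    refine ⟨isEmbedding_prodMkLeft y0, ?_⟩
    have : Set.range (fun x : X => (x, y0)) = Prod.snd ⁻¹' {y0} := by
      ext ⟨a, b⟩
      simp [eq_comm]
    rw [this]
    exact isClosed_singleton.preimage continuous_snd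
  have hYe : IsClosedEmbedding (fun y : Y => (x0, y)) := by
    refine ⟨isEmbedding_prodMkRight x0, ?_⟩
    have : Set.range (fun y : Y => (x0, y)) = Prod.fst ⁻¹' {x0} := by
      ext ⟨a, b⟩
      simp [eq_comm]
    rw [this]
    exact isClosed_singleton.preimage continuous_fst
  have hXn : NormalSpace X := hXe.normalSpace
  have hYn : NormalSpace Y := hYe.normalSpace
  have hZn : NormalSpace Z := normal_of_closed hf hc hs
  have hZ1 : T1Space Z := ⟨fun z => by
    obtain ⟨y, rfl⟩ := hs z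
    have := hc {y} isClosed_singleton
    simpa using this⟩
  have : T4Space X := ⟨⟩
  have : T4Space Y := ⟨⟩
  have : T4Space Z := ⟨⟩
  exact ⟨inferInstance, inferInstance, inferInstance, hf, hc, hs, hp, hn⟩

end Pool.Agent.Results.MP_bb3fde_gt.OwnStatement
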